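import Pool.Agent.NPC.Classes
import Pool.Agent.H671R2.ZDefs

/-!
# Maximal open packings: definitions
-/

namespace Pool.Agent.Q329.OP

open Pool.Agent.NPC

/-- `S` is an open packing: distinct elements have disjoint open neighbourhoods. -/
def OpenPacking {V : Type} (G : SimpleGraph V) (S : Finset V) : Prop :=
  ∀ u ∈ S, ∀ v ∈ S, u ≠ v → Disjoint (G.neighborSet u) (G.neighborSet v)

/-- `S` is a maximal open packing (under inclusion). -/
def MaxOpenPacking {V : Type} (G : SimpleGraph V) (S : Finset V) : Prop :=
  OpenPacking G S ∧ ∀ T, OpenPacking G T → S ⊆ T → T = S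

/-- All maximal open packings have the same size. -/
def EqualSizes {V : Type} (G : SimpleGraph V) : Prop :=
  ∀ S T, MaxOpenPacking G S → MaxOpenPacking G T → S.card = T.card

/-- The recognition problem: the input is the adjacency matrix of a graph all of whose maximal open
packings have the same size. -/
def Recog (m : List (List Bool)) : Prop :=
  ∃ (n : ℕ) (G : SimpleGraph (Fin n)), R671.adjMatrix G = m ∧ EqualSizes G

end Pool.Agent.Q329.OP
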