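import Pool.Agent.Q329.OP.Defs

/-!
# A criterion for all maximal open packings to have the same size
-/

namespace Pool.Agent.Q329.OP

variable {V K : Type} [Fintype V] {G : SimpleGraph V}

/-- Two distinct vertices share a neighbour. -/
def Cf (G : SimpleGraph V) (u v : V) : Prop := ∃ w, G.Adj u w ∧ G.Adj v w

theorem Cf.symm {u v : V} (h : Cf G u v) : Cf G v u := by
  obtain ⟨w, h1, h2⟩ := h
  exact ⟨w, h2, h1⟩

theorem packing_iff {S : Finset V} :
    OpenPacking G S ↔ ∀ u ∈ S, ∀ v ∈ S, u ≠ v → ¬ Cf G u v := by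
  unfold OpenPacking Cf
  refine forall₅_congr fun u _ v _ _ => ?_
  rw [Set.disjoint_left]
  constructor
  · rintro h ⟨w, h1, h2⟩
    exact h h1 h2
  · intro h w h1 h2
    exact h ⟨w, h1, h2⟩

theorem exists_max {S : Finset V} (hS : OpenPacking G S) : ∃ T, MaxOpenPacking G T ∧ S ⊆ T := by
  classical
  obtain ⟨T, hT, hmax⟩ := Finset.exists_max_image
    (Finset.univ.filter fun T : Finset V => OpenPacking G T ∧ S ⊆ T) Finset.card
    ⟨S, by simp [hS]⟩
  rw [Finset.mem_filter] at hT
  refine ⟨T, ⟨hT.2.1, fun U hU hTU => ?_⟩, hT.2.2⟩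
  refine (Finset.eq_of_subset_of_card_le hTU (hmax U ?_)).symm
  rw [Finset.mem_filter]
  exact ⟨Finset.mem_univ _, hU, hT.2.2.trans hTU⟩

theorem hit {S : Finset V} (hS : MaxOpenPacking G S) {v : V} (hv : v ∉ S) :
    ∃ s ∈ S, s ≠ v ∧ Cf G v s := by
  classical
  by_contra hc
  push Not at hc
  apply hv
  rw [← hS.2 (insert v S) ?_ (Finset.subset_insert v S)]
  · exact Finset.mem_insert_self v S
  · have h0 := packing_iff.1 hS.1
    rw [packing_iff]
    intro a ha b hb hab
    rw [Finset.mem_insert] at ha hb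
    rcases ha with rfl | ha <;> rcases hb with rfl | hb
    · exact absurd rfl hab
    · exact hc b hb (Ne.symm hab)
    · intro h
      exact hc a ha hab h.symm
    · exact h0 a ha b hb hab

/-- The vertices are divided into classes of vertices which pairwise share neighbours; each class but
the class `c₀` has a vertex which shares neighbours only with the vertices of its class. Then all
maximal open packings have the same size if and only if they all meet the class `c₀`. -/
theorem equal_iff (κ : V → K) (c₀ : K) (hcl : ∀ u v, u ≠ v → κ u = κ v → Cf G u v)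
    (hs : ∀ u, κ u ≠ c₀ → ∃ w, κ w = κ u ∧ ∀ v, Cf G w v → κ v = κ w)
    (h0 : ∃ z, κ z = c₀) :
    EqualSizes G ↔ ∀ S, MaxOpenPacking G S → ∃ s ∈ S, κ s = c₀ := by
  classical
  set A : Finset K := Finset.univ.image κ with hA
  have hinj : ∀ S, MaxOpenPacking G S → (S.image κ).card = S.card := by
    intro S hS
    refine Finset.card_image_of_injOn fun u hu v hv h => ?_
    by_contra hne
    exact packing_iff.1 hS.1 u hu v hv hne (hcl u v hne h)
  have hcov : ∀ S, MaxOpenPacking G S → ∀ k ∈ A, k ≠ c₀ → k ∈ S.image κ := by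
    intro S hS k hk hk0
    rw [hA, Finset.mem_image] at hk
    obtain ⟨u, _, rfl⟩ := hk
    obtain ⟨w, hw, hwv⟩ := hs u hk0
    rw [Finset.mem_image]
    by_cases h : w ∈ S
    · exact ⟨w, h, hw⟩
    · obtain ⟨s, h1, _, h3⟩ := hit hS h
      exact ⟨s, h1, (hwv s h3).trans hw⟩
  have hsub : ∀ S : Finset V, S.image κ ⊆ A := fun S => Finset.image_subset_image
    (Finset.subset_univ S)
  have hc0 : c₀ ∈ A := by
    obtain ⟨z, hz⟩ := h0
    rw [hA, Finset.mem_image]
    exact ⟨z, Finset.mem_univ _, hz⟩
  have hfull : ∀ S, MaxOpenPacking G S → (∃ s ∈ S, κ s = c₀) → S.card = A.card := by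
    intro S hS hh
    rw [← hinj S hS]
    congr 1
    refine Finset.Subset.antisymm (hsub S) fun k hk => ?_
    by_cases hk0 : k = c₀
    · obtain ⟨s, h1, h2⟩ := hh
      rw [hk0, Finset.mem_image]
      exact ⟨s, h1, h2⟩
    · exact hcov S hS k hk hk0
  constructor
  · intro h S hS
    by_contra hc
    obtain ⟨z, hz⟩ := h0
    obtain ⟨T, hT, hzT⟩ := exists_max (G := G) (S := {z}) (by
      rw [packing_iff]
      intro u hu v hv huv
      rw [Finset.mem_singleton] at hu hv
      exact absurd (hu.trans hv.symm) huv)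
    have h1 := hfull T hT ⟨z, hzT (Finset.mem_singleton_self z), hz⟩
    have h2 : S.card < A.card := by
      rw [← hinj S hS]
      refine Finset.card_lt_card ((Finset.ssubset_iff_of_subset (hsub S)).2 ⟨c₀, hc0, ?_⟩)
      rw [Finset.mem_image]
      exact hc
    have h3 := h S T hS hT
    omega
  · intro h S T hS hT
    rw [hfull S hS (h S hS), hfull T hT (h T hT)]

end Pool.Agent.Q329.OP
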