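import Pool.Agent.Q329.OP.Red
import Pool.Agent.W903.GP.Hier

/-!
# Recognising graphs whose maximal open packings all have the same size is coNP-hard
-/

namespace Pool.Agent.Q329.OP

open Pool.Agent.NPC

theorem recog_Mf (φ : F3) : Recog (Mf φ) ↔ EqualSizes (Gf φ) := by
  constructor
  · rintro ⟨n, G, hG, h⟩
    rw [← adjMatrix_Gf] at hG
    have hn : n = (vs φ).length := by
      have := congrArg List.length hG
      unfold R671.adjMatrix at this
      simpa using this
    subst hn
    rw [← R671.adjMatrix_inj hG]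
    exact h
  · intro h
    exact ⟨_, Gf φ, adjMatrix_Gf φ, h⟩

theorem hard : HardPr (fun m : List (List Bool) => ∃ (n : ℕ) (G : SimpleGraph (Fin n)),
    R671.adjMatrix G = m) (fun m => ¬ Recog m) :=
  hardPr_SAT3b.trans (poly_Mf Poly.id) (fun φ _ => ⟨_, _, adjMatrix_Gf φ⟩) fun φ h => by
    rw [recog_Mf]
    exact (equal_iff_unsat h.2.1 (List.length_pos_of_ne_nil h.2.2)).symm

theorem collapse {D : List Bool → List Bool} (hD : PolyTime D)
    (h : ∀ (n : ℕ) (G : SimpleGraph (Fin n)),
      D (bits (R671.adjMatrix G)) = [true] ↔ EqualSizes G) (L : Set (List Bool))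
    (hL : InNP L) : InP L := by
  obtain ⟨f, hf, hpr, hfL⟩ := hard L hL
  have h1 : InP Lᶜ := by
    refine ⟨fun x => D (bits (f x)), H642R2.TMSim.polyTime_comp hD (PC.toPolyTime hf),
      fun x => ?_⟩
    obtain ⟨n, G, hG⟩ := hpr x
    have hfx : x ∈ L ↔ ¬ Recog (f x) := hfL x
    change x ∈ Lᶜ ↔ D (bits (f x)) = [true]
    rw [Set.mem_compl_iff, hfx, not_not, ← hG, h]
    constructor
    · rintro ⟨n', G', hG', h'⟩
      have hn : n' = n := by
        have := congrArg List.length hG'
        unfold R671.adjMatrix at this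
        simpa using this
      subst hn
      rw [← R671.adjMatrix_inj hG']
      exact h'
    · intro h'
      exact ⟨n, G, rfl, h'⟩
  have h2 := W903.GP.inP_compl h1
  rwa [compl_compl] at h2

end Pool.Agent.Q329.OP
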