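import Pool.Agent.Q329.OP.Gen
import Pool.Agent.NPC.Sat2
import Pool.Agent.NPC.Dec
import Pool.Agent.H671R2.GraphEnc
import Pool.Agent.H671R2.PolyAuto

/-!
# The graph of a formula
-/

namespace Pool.Agent.Q329.OP

open Pool.Agent.NPC

/-- Formulas. -/
abbrev F3 : Type := List (Lit ℕ × Lit ℕ × Lit ℕ)

/-- Labels of vertices. -/
abbrev Lb : Type := ℕ × ℕ × Bool

/-- The list of the occurrences of literals. -/
def lits (φ : F3) : List (Bool × ℕ) := φ.flatMap fun c => [c.1, c.2.1, c.2.2]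

/-- The literal at an occurrence. -/
def lt (φ : F3) (l : ℕ) : Bool × ℕ := (lits φ).getD l (false, 0)

/-- Adjacency, from one side to the other one. -/
def E (φ : F3) (u v : Lb) : Bool :=
  (decide (u.1 = 0) && (decide (v.1 = 4) || decide (v.1 = 5) || decide (v.1 = 7) ||
    decide (v.1 = 8))) ||
  (decide (u.1 = 1) && (decide (v.1 = 6) || decide (v.1 = 9)) && decide (u.2.1 = v.2.1)) ||
  (decide (u.1 = 2) && (decide (v.1 = 6) || decide (v.1 = 7)) && decide (u.2.1 = v.2.1)) ||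
  (decide (u.1 = 2) && decide (v.1 = 5) && decide (lt φ v.2.1 = (u.2.2, u.2.1))) ||
  (decide (u.1 = 3) && decide (v.1 = 4)) ||
  (decide (u.1 = 3) && decide (v.1 = 5) && decide (u.2.1 / 3 = v.2.1 / 3))

theorem E_iff {φ : F3} {u v : Lb} : E φ u v = true ↔
    (u.1 = 0 ∧ (v.1 = 4 ∨ v.1 = 5 ∨ v.1 = 7 ∨ v.1 = 8)) ∨
    (u.1 = 1 ∧ (v.1 = 6 ∨ v.1 = 9) ∧ u.2.1 = v.2.1) ∨
    (u.1 = 2 ∧ (v.1 = 6 ∨ v.1 = 7) ∧ u.2.1 = v.2.1) ∨
    (u.1 = 2 ∧ v.1 = 5 ∧ lt φ v.2.1 = (u.2.2, u.2.1)) ∨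
    (u.1 = 3 ∧ v.1 = 4) ∨
    (u.1 = 3 ∧ v.1 = 5 ∧ u.2.1 / 3 = v.2.1 / 3) := by
  unfold E
  simp only [Bool.or_eq_true, Bool.and_eq_true, decide_eq_true_eq]
  tauto

/-- Adjacency. -/
def ad (φ : F3) (u v : Lb) : Bool := E φ u v || E φ v u

theorem ad_symm (φ : F3) (u v : Lb) : ad φ u v = ad φ v u := Bool.or_comm _ _

theorem E_side {φ : F3} {u v : Lb} (h : E φ u v = true) : u.1 < 4 ∧ 4 ≤ v.1 := by
  rw [E_iff] at h
  omega

theorem ad_irrefl (φ : F3) (u : Lb) : ad φ u u = false := by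
  by_contra h
  rw [Bool.not_eq_false] at h
  unfold ad at h
  rw [Bool.or_self] at h
  have := E_side h
  omega

/-- The vertices. -/
def vs (φ : F3) : List Lb := (List.range 10) ×ˢ ((List.range (3 * φ.length)) ×ˢ [false, true])

/-- The graph. -/
def Gf (φ : F3) : SimpleGraph (Fin (vs φ).length) :=
  R671.listGraph (vs φ) (ad φ) (ad_symm φ) (ad_irrefl φ)

/-- Its adjacency matrix. -/
def Mf (φ : F3) : List (List Bool) := (vs φ).map fun u => (vs φ).map fun w => ad φ u w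

theorem adjMatrix_Gf (φ : F3) : R671.adjMatrix (Gf φ) = Mf φ :=
  R671.adjMatrix_listGraph _ _ _ _

theorem mem_vs {φ : F3} {a : Lb} : a ∈ vs φ ↔ a.1 < 10 ∧ a.2.1 < 3 * φ.length := by
  obtain ⟨r, l, b⟩ := a
  unfold vs
  rw [List.mem_product, List.mem_product, List.mem_range, List.mem_range]
  cases b <;> simp

theorem nodup_vs (φ : F3) : (vs φ).Nodup := by
  unfold vs
  exact List.nodup_range.product (List.nodup_range.product (by decide))

/-- The label of a vertex. -/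
def lb (φ : F3) (k : Fin (vs φ).length) : Lb := (vs φ)[k]

theorem lb_inj {φ : F3} {k k' : Fin (vs φ).length} (h : lb φ k = lb φ k') : k = k' :=
  Fin.ext ((List.Nodup.getElem_inj_iff (nodup_vs φ)).1 h)

theorem lb_lt {φ : F3} (k : Fin (vs φ).length) : (lb φ k).1 < 10 ∧ (lb φ k).2.1 < 3 * φ.length :=
  mem_vs.1 (List.getElem_mem _)

theorem exists_lb {φ : F3} (t i : ℕ) (b : Bool) (h : t < 10) (h' : i < 3 * φ.length) :
    ∃ k, lb φ k = (t, i, b) := by
  obtain ⟨i, hi, h2⟩ := List.getElem_of_mem (mem_vs.2 (show ((t, i, b) : Lb).1 < 10 ∧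
    ((t, i, b) : Lb).2.1 < 3 * φ.length from ⟨h, h'⟩))
  exact ⟨⟨i, hi⟩, h2⟩

theorem Gf_adj {φ : F3} {k k' : Fin (vs φ).length} :
    (Gf φ).Adj k k' ↔ E φ (lb φ k) (lb φ k') = true ∨ E φ (lb φ k') (lb φ k) = true := by
  unfold Gf R671.listGraph ad lb
  exact (Bool.or_eq_true _ _).to_iff

/-- Sharing a neighbour on the first side. -/
theorem cf_iff {φ : F3} {u v : Fin (vs φ).length} : Cf (Gf φ) u v ↔
    (∃ w, E φ (lb φ u) (lb φ w) = true ∧ E φ (lb φ v) (lb φ w) = true) ∨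
    (∃ w, E φ (lb φ w) (lb φ u) = true ∧ E φ (lb φ w) (lb φ v) = true) := by
  unfold Cf
  simp only [Gf_adj]
  constructor
  · rintro ⟨w, h1 | h1, h2 | h2⟩
    · exact Or.inl ⟨w, h1, h2⟩
    · have := E_side h1; have := E_side h2; omega
    · have := E_side h1; have := E_side h2; omega
    · exact Or.inr ⟨w, h1, h2⟩
  · rintro (⟨w, h1, h2⟩ | ⟨w, h1, h2⟩)
    · exact ⟨w, Or.inl h1, Or.inl h2⟩
    · exact ⟨w, Or.inr h1, Or.inr h2⟩

/-- The classes of labels. -/
def kap (a : Lb) : ℕ × ℕ :=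
  if a.1 = 0 ∨ a.1 = 3 then (0, 0) else if a.1 = 1 ∨ a.1 = 2 then (1, a.2.1) else
    if a.1 = 6 ∨ a.1 = 9 then (3, a.2.1) else (2, 0)

theorem kap_cases {a : Lb} (h : a.1 < 10) :
    ((a.1 = 0 ∨ a.1 = 3) ∧ kap a = (0, 0)) ∨ ((a.1 = 1 ∨ a.1 = 2) ∧ kap a = (1, a.2.1)) ∨
    ((a.1 = 6 ∨ a.1 = 9) ∧ kap a = (3, a.2.1)) ∨
    ((a.1 = 4 ∨ a.1 = 5 ∨ a.1 = 7 ∨ a.1 = 8) ∧ kap a = (2, 0)) := by
  unfold kap
  by_cases h1 : a.1 = 0 ∨ a.1 = 3
  · rw [if_pos h1]; tauto
  · rw [if_neg h1]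
    by_cases h2 : a.1 = 1 ∨ a.1 = 2
    · rw [if_pos h2]; tauto
    · rw [if_neg h2]
      by_cases h3 : a.1 = 6 ∨ a.1 = 9
      · rw [if_pos h3]; tauto
      · rw [if_neg h3]
        have : a.1 = 4 ∨ a.1 = 5 ∨ a.1 = 7 ∨ a.1 = 8 := by omega
        tauto

theorem kap_zero {a : Lb} (h : a.1 < 10) : kap a = (0, 0) ↔ a.1 = 0 ∨ a.1 = 3 := by
  rcases kap_cases h with ⟨h1, h2⟩ | ⟨h1, h2⟩ | ⟨h1, h2⟩ | ⟨h1, h2⟩ <;> rw [h2] <;> simp <;> omega

theorem clique {φ : F3} (h0 : 0 < φ.length) {u v : Fin (vs φ).length}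
    (h : kap (lb φ u) = kap (lb φ v)) : Cf (Gf φ) u v := by
  have hu := lb_lt u
  have hv := lb_lt v
  rw [cf_iff]
  rcases kap_cases hu.1 with ⟨h1, h2⟩ | ⟨h1, h2⟩ | ⟨h1, h2⟩ | ⟨h1, h2⟩ <;>
    rcases kap_cases hv.1 with ⟨h3, h4⟩ | ⟨h3, h4⟩ | ⟨h3, h4⟩ | ⟨h3, h4⟩ <;>
    rw [h2, h4] at h <;> simp only [Prod.mk.injEq] at h <;> try omega
  · obtain ⟨w, hw⟩ := exists_lb (φ := φ) 4 0 false (by norm_num) (by omega)
    refine Or.inl ⟨w, ?_, ?_⟩ <;> rw [E_iff, hw] <;> simp <;> omega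
  · obtain ⟨w, hw⟩ := exists_lb (φ := φ) 6 (lb φ u).2.1 false (by norm_num) (by omega)
    refine Or.inl ⟨w, ?_, ?_⟩ <;> rw [E_iff, hw] <;> simp <;> omega
  · obtain ⟨w, hw⟩ := exists_lb (φ := φ) 1 (lb φ u).2.1 false (by norm_num) (by omega)
    refine Or.inr ⟨w, ?_, ?_⟩ <;> rw [E_iff, hw] <;> simp <;> omega
  · obtain ⟨w, hw⟩ := exists_lb (φ := φ) 0 0 false (by norm_num) (by omega)
    refine Or.inr ⟨w, ?_, ?_⟩ <;> rw [E_iff, hw] <;> simp <;> omega

theorem simplicial {φ : F3} (h0 : 0 < φ.length) {u : Fin (vs φ).length}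
    (h : kap (lb φ u) ≠ (0, 0)) :
    ∃ w, kap (lb φ w) = kap (lb φ u) ∧ ∀ v, Cf (Gf φ) w v → kap (lb φ v) = kap (lb φ w) := by
  have hu := lb_lt u
  rcases kap_cases hu.1 with ⟨h1, h2⟩ | ⟨h1, h2⟩ | ⟨h1, h2⟩ | ⟨h1, h2⟩
  · exact absurd h2 h
  · obtain ⟨w, hw⟩ := exists_lb (φ := φ) 1 (lb φ u).2.1 false (by norm_num) (by omega)
    refine ⟨w, by rw [hw, h2]; rfl, fun v hv => ?_⟩
    rw [cf_iff] at hv
    rcases hv with ⟨x, h3, h4⟩ | ⟨x, h3, h4⟩ <;> rw [E_iff] at h3 h4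
    · rw [hw] at h3
      simp only at h3
      have h5 : ((lb φ v).1 = 1 ∨ (lb φ v).1 = 2) ∧ (lb φ v).2.1 = (lb φ u).2.1 := by omega
      rw [hw]
      rcases kap_cases (lb_lt v).1 with ⟨h6, h7⟩ | ⟨h6, h7⟩ | ⟨h6, h7⟩ | ⟨h6, h7⟩
      · omega
      · rw [h7, h5.2]; rfl
      · omega
      · omega
    · rw [hw] at h3
      simp only at h3
      omega
  · obtain ⟨w, hw⟩ := exists_lb (φ := φ) 9 (lb φ u).2.1 false (by norm_num) (by omega)
    refine ⟨w, by rw [hw, h2]; rfl, fun v hv => ?_⟩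
    rw [cf_iff] at hv
    rcases hv with ⟨x, h3, h4⟩ | ⟨x, h3, h4⟩ <;> rw [E_iff] at h3 h4
    · rw [hw] at h3
      simp only at h3
      omega
    · rw [hw] at h3
      simp only at h3
      have h5 : ((lb φ v).1 = 6 ∨ (lb φ v).1 = 9) ∧ (lb φ v).2.1 = (lb φ u).2.1 := by omega
      rw [hw]
      rcases kap_cases (lb_lt v).1 with ⟨h6, h7⟩ | ⟨h6, h7⟩ | ⟨h6, h7⟩ | ⟨h6, h7⟩
      · omega
      · omega
      · rw [h7, h5.2]; rfl
      · omega
  · obtain ⟨w, hw⟩ := exists_lb (φ := φ) 8 0 false (by norm_num) (by omega)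
    refine ⟨w, by rw [hw, h2]; rfl, fun v hv => ?_⟩
    rw [cf_iff] at hv
    rcases hv with ⟨x, h3, h4⟩ | ⟨x, h3, h4⟩ <;> rw [E_iff] at h3 h4
    · rw [hw] at h3
      simp only at h3
      omega
    · rw [hw] at h3
      simp only at h3
      have h5 : (lb φ v).1 = 4 ∨ (lb φ v).1 = 5 ∨ (lb φ v).1 = 7 ∨ (lb φ v).1 = 8 := by omega
      rw [hw]
      rcases kap_cases (lb_lt v).1 with ⟨h6, h7⟩ | ⟨h6, h7⟩ | ⟨h6, h7⟩ | ⟨h6, h7⟩
      · omega
      · omega
      · omega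
      · rw [h7]; rfl

theorem getD_lits (φ : F3) (j : ℕ) (hj : j < φ.length) :
    lt φ (3 * j) = (φ[j]).1 ∧ lt φ (3 * j + 1) = (φ[j]).2.1 ∧ lt φ (3 * j + 2) = (φ[j]).2.2 := by
  unfold lt lits
  induction φ generalizing j with
  | nil => simp at hj
  | cons c φ ih =>
    rw [List.flatMap_cons]
    cases j with
    | zero => simp
    | succ j =>
      have h1 := ih j (by simpa using hj)
      have e : ∀ k, ([c.1, c.2.1, c.2.2] ++ φ.flatMap fun c => [c.1, c.2.1, c.2.2]).getD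
          (3 * (j + 1) + k) (false, 0) =
          (φ.flatMap fun c => [c.1, c.2.1, c.2.2]).getD (3 * j + k) (false, 0) := by
        intro k
        rw [show 3 * (j + 1) + k = (3 * j + k) + 3 by ring]
        rfl
      refine ⟨(e 0).trans h1.1, (e 1).trans h1.2.1, (e 2).trans h1.2.2⟩

/-- The satisfaction of a clause in terms of the occurrences of literals. -/
theorem sat_iff (φ : F3) (τ : ℕ → Bool) :
    (∀ c ∈ φ, τ c.1.2 = c.1.1 ∨ τ c.2.1.2 = c.2.1.1 ∨ τ c.2.2.2 = c.2.2.1) ↔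
      ∀ j < φ.length, ∃ l < 3 * φ.length, l / 3 = j ∧ τ (lt φ l).2 = (lt φ l).1 := by
  constructor
  · intro h j hj
    have h1 := h _ (List.getElem_mem hj)
    obtain ⟨e1, e2, e3⟩ := getD_lits φ j hj
    rw [← e1, ← e2, ← e3] at h1
    rcases h1 with h1 | h1 | h1
    · exact ⟨3 * j, by omega, by omega, h1⟩
    · exact ⟨3 * j + 1, by omega, by omega, h1⟩
    · exact ⟨3 * j + 2, by omega, by omega, h1⟩
  · intro h c hc
    obtain ⟨j, hj, rfl⟩ := List.getElem_of_mem hc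
    obtain ⟨l, hl, hlj, h1⟩ := h j hj
    obtain ⟨e1, e2, e3⟩ := getD_lits φ j hj
    rw [← e1, ← e2, ← e3]
    have h2 : l = 3 * j ∨ l = 3 * j + 1 ∨ l = 3 * j + 2 := by omega
    rcases h2 with rfl | rfl | rfl
    · exact Or.inl h1
    · exact Or.inr (Or.inl h1)
    · exact Or.inr (Or.inr h1)

theorem lt_lt {φ : F3} (hb : Bounded3 φ) {l : ℕ} (hl : l < 3 * φ.length) :
    (lt φ l).2 < 3 * φ.length := by
  have hj : l / 3 < φ.length := by omega
  obtain ⟨e1, e2, e3⟩ := getD_lits φ (l / 3) hj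
  obtain ⟨b1, b2, b3⟩ := hb _ (List.getElem_mem hj)
  have h2 : l = 3 * (l / 3) ∨ l = 3 * (l / 3) + 1 ∨ l = 3 * (l / 3) + 2 := by omega
  rcases h2 with h2 | h2 | h2 <;> rw [h2]
  · rw [e1]; exact b1
  · rw [e2]; exact b2
  · rw [e3]; exact b3

/-- The formula is satisfiable if and only if some maximal open packing avoids the first class. -/
theorem sat_iff_avoid {φ : F3} (hb : Bounded3 φ) (h0 : 0 < φ.length) :
    SAT3 φ ↔ ∃ S, MaxOpenPacking (Gf φ) S ∧ ∀ s ∈ S, kap (lb φ s) ≠ (0, 0) := by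
  classical
  constructor
  · rintro ⟨τ, hτ⟩
    rw [sat_iff] at hτ
    obtain ⟨S, hS, hsub⟩ := exists_max (G := Gf φ)
      (S := Finset.univ.filter fun k => (lb φ k).1 = 2 ∧ (lb φ k).2.2 = τ (lb φ k).2.1) (by
        rw [packing_iff]
        intro u hu v hv huv hc
        rw [Finset.mem_filter] at hu hv
        apply huv
        apply lb_inj
        have h2 : (lb φ u).2.1 = (lb φ v).2.1 := by
          rw [cf_iff] at hc
          rcases hc with ⟨x, h3, h4⟩ | ⟨x, h3, h4⟩ <;> rw [E_iff] at h3 h4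
          · have h5 : (lb φ x).1 = 6 ∨ (lb φ x).1 = 7 ∨ (lb φ x).1 = 5 := by omega
            rcases h5 with h5 | h5 | h5
            · omega
            · omega
            · have e1 : lt φ (lb φ x).2.1 = ((lb φ u).2.2, (lb φ u).2.1) := by
                rcases h3 with h | h | h | h | h | h
                · omega
                · omega
                · omega
                · exact h.2.2
                · omega
                · omega
              have e2 : lt φ (lb φ x).2.1 = ((lb φ v).2.2, (lb φ v).2.1) := by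
                rcases h4 with h | h | h | h | h | h
                · omega
                · omega
                · omega
                · exact h.2.2
                · omega
                · omega
              have := e1.symm.trans e2
              simp only [Prod.mk.injEq] at this
              exact this.2
          · omega
        have h3 : (lb φ u).2.2 = (lb φ v).2.2 := by rw [hu.2.2, hv.2.2, h2]
        exact Prod.ext (hu.2.1.trans hv.2.1.symm) (Prod.ext h2 h3))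
    refine ⟨S, hS, fun s hs hk => ?_⟩
    rw [kap_zero (lb_lt s).1] at hk
    have hp := packing_iff.1 hS.1
    rcases hk with hk | hk
    · obtain ⟨x, hx⟩ := exists_lb (φ := φ) 2 0 (τ 0) (by norm_num) (by omega)
      obtain ⟨w, hw⟩ := exists_lb (φ := φ) 7 0 false (by norm_num) (by omega)
      have hxS : x ∈ S := hsub (by rw [Finset.mem_filter, hx]; exact ⟨Finset.mem_univ _, rfl, rfl⟩)
      refine hp s hs x hxS (fun h => ?_) (cf_iff.2 (Or.inl ⟨w, ?_, ?_⟩))
      · rw [h, hx] at hk; simp at hk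
      · rw [E_iff, hw]; simp; omega
      · rw [E_iff, hw, hx]; simp
    · have hj : (lb φ s).2.1 / 3 < φ.length := by have := (lb_lt s).2; omega
      obtain ⟨l, hl, hlj, hl2⟩ := hτ _ hj
      obtain ⟨x, hx⟩ := exists_lb (φ := φ) 2 (lt φ l).2 (lt φ l).1 (by norm_num) (lt_lt hb hl)
      obtain ⟨w, hw⟩ := exists_lb (φ := φ) 5 l false (by norm_num) hl
      have hxS : x ∈ S := hsub (by
        rw [Finset.mem_filter, hx]
        exact ⟨Finset.mem_univ _, rfl, hl2.symm⟩)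
      refine hp s hs x hxS (fun h => ?_) (cf_iff.2 (Or.inl ⟨w, ?_, ?_⟩))
      · rw [h, hx] at hk; simp at hk
      · rw [E_iff, hw]; simp; omega
      · rw [E_iff, hw, hx]; simp
  · rintro ⟨S, hS, hav⟩
    have hp := packing_iff.1 hS.1
    obtain ⟨τ, hτ⟩ : ∃ τ : ℕ → Bool, ∀ i, τ i = decide (∃ s ∈ S, lb φ s = (2, i, true)) :=
      ⟨fun i => decide (∃ s ∈ S, lb φ s = (2, i, true)), fun i => rfl⟩
    refine ⟨τ, (sat_iff φ τ).2 ?_⟩
    intro j hj
    obtain ⟨v, hv⟩ := exists_lb (φ := φ) 3 (3 * j) false (by norm_num) (by omega)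
    have hvS : v ∉ S := fun h => hav v h (by rw [kap_zero (lb_lt v).1, hv]; simp)
    obtain ⟨s, hs, _, hc⟩ := hit hS hvS
    have hs0 := hav s hs
    rw [ne_eq, kap_zero (lb_lt s).1] at hs0
    rw [cf_iff] at hc
    rcases hc with ⟨x, h3, h4⟩ | ⟨x, h3, h4⟩ <;> rw [E_iff] at h3 h4
    · rw [hv] at h3
      simp only at h3
      have h5 : (lb φ x).1 = 5 ∧ 3 * j / 3 = (lb φ x).2.1 / 3 := by omega
      have h6 : (lb φ s).1 = 2 ∧ lt φ (lb φ x).2.1 = ((lb φ s).2.2, (lb φ s).2.1) := by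
        rcases h4 with h | h | h | h | h | h
        · omega
        · omega
        · omega
        · exact ⟨h.1, h.2.2⟩
        · omega
        · omega
      refine ⟨(lb φ x).2.1, (lb_lt x).2, by omega, ?_⟩
      rw [h6.2]
      simp only
      rw [hτ]
      cases hb' : (lb φ s).2.2 with
      | true =>
        rw [decide_eq_true_iff]
        exact ⟨s, hs, Prod.ext h6.1 (Prod.ext rfl hb')⟩
      | false =>
        rw [decide_eq_false_iff_not]
        rintro ⟨s', hs', h7⟩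
        have hne : s ≠ s' := by
          rintro rfl
          rw [h7] at hb'
          simp at hb'
        refine hp s hs s' hs' hne (clique h0 ?_)
        rcases kap_cases (lb_lt s).1 with ⟨h8, h9⟩ | ⟨h8, h9⟩ | ⟨h8, h9⟩ | ⟨h8, h9⟩
        · omega
        · rw [h9, h7]; rfl
        · omega
        · omega
    · rw [hv] at h3
      simp only at h3
      omega

theorem equal_iff_unsat {φ : F3} (hb : Bounded3 φ) (h0 : 0 < φ.length) :
    ¬ EqualSizes (Gf φ) ↔ SAT3 φ := by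
  rw [sat_iff_avoid hb h0, equal_iff (fun k => kap (lb φ k)) (0, 0)
    (fun u v _ h => clique h0 h) (fun u h => simplicial h0 h) (by
      obtain ⟨w, hw⟩ := exists_lb (φ := φ) 0 0 false (by norm_num) (by omega)
      exact ⟨w, by rw [hw]; rfl⟩)]
  push Not
  rfl

/-! ### Polynomial time -/

variable {α : Type} [TEnc α]

theorem poly_lt {F : α → F3} {l : α → ℕ} (hF : Poly F) (hl : Poly l) :
    Poly (fun a => lt (F a) (l a)) := by
  unfold lt lits
  fun_prop

attribute [local fun_prop] poly_lt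

theorem poly_E {F : α → F3} {a b : α → Lb} (hF : Poly F) (ha : Poly a) (hb : Poly b) :
    Poly (fun x => E (F x) (a x) (b x)) := by
  unfold E
  fun_prop

attribute [local fun_prop] poly_E

theorem poly_vs {F : α → F3} (hF : Poly F) : Poly (fun a => vs (F a)) := by
  unfold vs
  have h1 : Poly (fun a => List.range (3 * (F a).length)) :=
    (NPC.Poly.range_length (l := fun a => (F a) ++ (F a) ++ (F a)) (by fun_prop)).congr fun a => by
      simp only [List.length_append]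
      congr 1
      omega
  fun_prop

attribute [local fun_prop] poly_vs

theorem poly_Mf {F : α → F3} (hF : Poly F) : Poly (fun a => Mf (F a)) := by
  unfold Mf ad
  fun_prop

end Pool.Agent.Q329.OP
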